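import Pool.Agent.Y668.EX.Sp

/-!
# Counting the quotients `μ² κ / b`
-/

set_option autoImplicit false

namespace Pool.Agent.Y668.EX

open Finset NumberField IsDedekindDomain Pool.Agent.H691R3 Pool.Agent.TH876.Loc Pool.Agent.TH876.KR
open Pool.Agent.Y728 (av_inl_le_house sum_mult)
open Pool.Agent.Y812.LK (coe_ne Ix elt elt_inj elt_add elt_ne hs hs_nonneg elt_house box card_box mem_box
  D_bound)

variable {K : Type} [Field K] [NumberField K]

open scoped Pointwise in
open Classical in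
theorem quot_count2 (A B : Finset (𝓞 K)) (hA : ∀ a ∈ A, a ≠ 0) (hB : ∀ b ∈ B, b ≠ 0) (D : ℕ)
    (hD : ∀ a ∈ A, ∀ b ∈ B, (A.filter fun c => c ∣ a * b).card ≤ D) :
    A.card * B.card ≤ ((A ×ˢ B).image fun p => (p.1 : K) / (p.2 : K)).card * D := by
  have hinj : Function.Injective fun a : 𝓞 K => (a : K) := fun a b h =>
    RingOfIntegers.coe_injective h
  have hinj' : Function.Injective fun a : 𝓞 K => (a : K)⁻¹ := fun a b h =>
    RingOfIntegers.coe_injective (inv_injective h)
  set s : Finset K := A.image (fun a : 𝓞 K => (a : K)) with hs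
  set t : Finset K := B.image (fun a : 𝓞 K => (a : K)⁻¹) with ht
  have hsc : s.card = A.card := Finset.card_image_of_injective _ hinj
  have htc : t.card = B.card := Finset.card_image_of_injective _ hinj'
  have hst : s * t ⊆ (A ×ˢ B).image fun p => (p.1 : K) / (p.2 : K) := by
    intro x hx
    obtain ⟨y, hy, z, hz, rfl⟩ := Finset.mem_mul.1 hx
    obtain ⟨a, ha, rfl⟩ := Finset.mem_image.1 hy
    obtain ⟨b, hb, rfl⟩ := Finset.mem_image.1 hz
    exact Finset.mem_image.2 ⟨(a, b), Finset.mem_product.2 ⟨ha, hb⟩, div_eq_mul_inv _ _⟩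
  have hE : Finset.mulEnergy s t ≤ D * (s ×ˢ t).card := by
    unfold Finset.mulEnergy
    refine Finset.card_le_mul_card_image_of_maps_to (f := fun x => (x.1.1, x.2.2)) ?_ D ?_
    · intro x hx
      have hx' := Finset.mem_filter.1 hx
      have h1 := Finset.mem_product.1 hx'.1
      exact Finset.mem_product.2 ⟨(Finset.mem_product.1 h1.1).1, (Finset.mem_product.1 h1.2).2⟩
    · rintro ⟨y, z⟩ hyz
      obtain ⟨hy, hz⟩ := Finset.mem_product.1 hyz
      obtain ⟨a, ha, rfl⟩ := Finset.mem_image.1 hy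
      obtain ⟨b, hb, rfl⟩ := Finset.mem_image.1 hz
      refine le_trans ?_ (hD a ha b hb)
      have key : ∀ x ∈ ((s ×ˢ s) ×ˢ t ×ˢ t).filter (fun x => x.1.1 * x.2.1 = x.1.2 * x.2.2),
          (x.1.1, x.2.2) = ((a : K), (b : K)⁻¹) →
          ∃ c ∈ A, ∃ d ∈ B, x.1.2 = (c : K) ∧ x.2.1 = (d : K)⁻¹ ∧ a * b = c * d := by
        intro x hx he
        have hx' := Finset.mem_filter.1 hx
        have h1 := Finset.mem_product.1 hx'.1
        obtain ⟨c, hc, hc'⟩ := Finset.mem_image.1 (Finset.mem_product.1 h1.1).2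
        obtain ⟨d, hd, hd'⟩ := Finset.mem_image.1 (Finset.mem_product.1 h1.2).1
        refine ⟨c, hc, d, hd, hc'.symm, hd'.symm, ?_⟩
        have e1 : x.1.1 = (a : K) := congrArg Prod.fst he
        have e2 : x.2.2 = (b : K)⁻¹ := congrArg Prod.snd he
        have e3 := hx'.2
        rw [e1, e2, ← hc', ← hd'] at e3
        have nb := coe_ne (hB b hb)
        have nd := coe_ne (hB d hd)
        have e4 : (a : K) * b = c * d := by
          field_simp at e3
          linear_combination e3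
        apply RingOfIntegers.coe_injective
        exact e4
      calc _ ≤ ((A.filter fun c => c ∣ a * b).image (fun a : 𝓞 K => (a : K))).card := by
            refine Finset.card_le_card_of_injOn (fun x => x.1.2) ?_ ?_
            · intro x hx
              have hx' := Finset.mem_filter.1 hx
              obtain ⟨c, hc, d, hd, e1, e2, e3⟩ := key x hx'.1 hx'.2
              show x.1.2 ∈ _
              rw [e1]
              exact Finset.mem_coe.2 (Finset.mem_image.2 ⟨c, Finset.mem_filter.2 ⟨hc, ⟨d, e3⟩⟩, rfl⟩)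
            · intro x hx y hy hxy
              have hx' := Finset.mem_filter.1 hx
              have hy' := Finset.mem_filter.1 hy
              obtain ⟨c, hc, d, hd, e1, e2, e3⟩ := key x hx'.1 hx'.2
              obtain ⟨c', hc', d', hd', e1', e2', e3'⟩ := key y hy'.1 hy'.2
              have hxy' : x.1.2 = y.1.2 := hxy
              have f1 : x.1.1 = y.1.1 := by
                rw [show x.1.1 = (a : K) from congrArg Prod.fst hx'.2,
                  show y.1.1 = (a : K) from congrArg Prod.fst hy'.2]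
              have f2 : x.2.2 = y.2.2 := by
                rw [show x.2.2 = (b : K)⁻¹ from congrArg Prod.snd hx'.2,
                  show y.2.2 = (b : K)⁻¹ from congrArg Prod.snd hy'.2]
              have f3 : c = c' := by
                apply RingOfIntegers.coe_injective
                show (c : K) = c'
                rw [← e1, ← e1', hxy']
              have f4 : d = d' := by
                subst f3
                exact mul_left_cancel₀ (hA c hc) (e3.symm.trans e3')
              have f5 : x.2.1 = y.2.1 := by rw [e2, e2', f4]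
              exact Prod.ext (Prod.ext f1 hxy') (Prod.ext f5 f2)
        _ ≤ _ := Finset.card_image_le
  have h1 := Finset.le_card_mul_mul_mulEnergy s t
  rw [hsc, htc] at h1
  rw [Finset.card_product, hsc, htc] at hE
  rcases Nat.eq_zero_or_pos A.card with hA0 | hA0
  · rw [hA0]; simp
  rcases Nat.eq_zero_or_pos B.card with hB0 | hB0
  · rw [hB0]; simp
  have h2 : (A.card * B.card) * (A.card * B.card) ≤
      (((A ×ˢ B).image fun p => (p.1 : K) / (p.2 : K)).card * D) * (A.card * B.card) := by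
    refine le_trans (le_of_eq ?_) (h1.trans ((Nat.mul_le_mul (Finset.card_le_card hst) hE).trans
      (le_of_eq ?_)))
    · ring
    · ring
  exact Nat.le_of_mul_le_mul_right h2 (Nat.mul_pos hA0 hB0)

open Classical in
/-- the number of products `μ² κ` -/
theorem prod_count (U W : Finset (𝓞 K)) (hU : ∀ a ∈ U, a ≠ 0) (D : ℕ)
    (hD : ∀ a ∈ (U ×ˢ W).image (fun p => p.1 ^ 2 * p.2), (U.filter fun c => c ∣ a * 1).card ≤ D) :
    U.card * W.card ≤ ((U ×ˢ W).image fun p => p.1 ^ 2 * p.2).card * D := by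
  rw [← Finset.card_product, mul_comm _ D]
  refine Finset.card_le_mul_card_image (f := fun p : 𝓞 K × 𝓞 K => p.1 ^ 2 * p.2) _ D ?_
  intro a ha
  refine le_trans ?_ (hD a ha)
  refine Finset.card_le_card_of_injOn (fun p => p.1) ?_ ?_
  · intro p hp
    have hp' := Finset.mem_filter.1 hp
    have h1 := Finset.mem_product.1 hp'.1
    refine Finset.mem_coe.2 (Finset.mem_filter.2 ⟨h1.1, ?_⟩)
    rw [mul_one, ← hp'.2]
    exact ⟨p.1 * p.2, by ring⟩
  · intro p hp q hq hpq
    have hp' := Finset.mem_filter.1 hp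
    have hq' := Finset.mem_filter.1 hq
    have hpq' : p.1 = q.1 := hpq
    have h1 := Finset.mem_product.1 hp'.1
    have e : p.1 ^ 2 * p.2 = p.1 ^ 2 * q.2 := by
      rw [hp'.2, hpq', hq'.2]
    have h2 := mul_left_cancel₀ (pow_ne_zero 2 (hU p.1 h1.1)) e
    exact Prod.ext hpq' h2

open Classical in
/-- the number of quotients `μ² κ / b` -/
theorem fam_count (U W B : Finset (𝓞 K)) (hU : ∀ a ∈ U, a ≠ 0) (hW : ∀ a ∈ W, a ≠ 0)
    (hB : ∀ a ∈ B, a ≠ 0) (D : ℕ)
    (hD : ∀ a ∈ U ∪ (U ×ˢ W).image (fun p => p.1 ^ 2 * p.2) ∪ B ∪ {1},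
      ∀ b ∈ U ∪ (U ×ˢ W).image (fun p => p.1 ^ 2 * p.2) ∪ B ∪ {1},
      ((U ∪ (U ×ˢ W).image (fun p => p.1 ^ 2 * p.2) ∪ B ∪ {1}).filter fun c => c ∣ a * b).card ≤ D) :
    U.card * W.card * B.card ≤
      ((((U ×ˢ W).image fun p : 𝓞 K × 𝓞 K => p.1 ^ 2 * p.2) ×ˢ B).image
        fun p : 𝓞 K × 𝓞 K => (p.1 : K) / (p.2 : K)).card * (D * D) := by
  obtain ⟨A, hA⟩ : ∃ A, A = (U ×ˢ W).image (fun p : 𝓞 K × 𝓞 K => p.1 ^ 2 * p.2) := ⟨_, rfl⟩
  obtain ⟨Z, hZ⟩ : ∃ Z, Z = U ∪ A ∪ B ∪ {1} := ⟨_, rfl⟩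
  rw [← hA, ← hZ] at hD
  have s1 : U ⊆ Z := by
    rw [hZ]; intro x hx; simp [hx]
  have s2 : A ⊆ Z := by
    rw [hZ]; intro x hx; simp [hx]
  have s3 : B ⊆ Z := by
    rw [hZ]; intro x hx; simp [hx]
  have s4 : (1 : 𝓞 K) ∈ Z := by
    rw [hZ]; simp
  have hA0 : ∀ a ∈ A, a ≠ 0 := by
    intro a ha
    rw [hA] at ha
    obtain ⟨p, hp, rfl⟩ := Finset.mem_image.1 ha
    have h1 := Finset.mem_product.1 hp
    exact mul_ne_zero (pow_ne_zero 2 (hU _ h1.1)) (hW _ h1.2)
  have h1 := prod_count U W hU D (fun a ha => by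
    rw [← hA] at ha
    exact (Finset.card_le_card (Finset.filter_subset_filter _ s1)).trans (hD a (s2 ha) 1 s4))
  have h2 := quot_count2 A B hA0 hB D (fun a ha b hb =>
    (Finset.card_le_card (Finset.filter_subset_filter _ s2)).trans (hD a (s2 ha) b (s3 hb)))
  rw [← hA] at h1 ⊢
  calc U.card * W.card * B.card ≤ A.card * D * B.card := Nat.mul_le_mul_right _ h1
    _ = A.card * B.card * D := by ring
    _ ≤ _ * D * D := Nat.mul_le_mul_right _ h2
    _ = _ := by ring

section Box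

variable (K)

/-- the shift -/
noncomputable def sh : ℕ := ⌈hs K⌉₊ + 1

theorem le_sh : hs K + 1 ≤ sh K := by
  unfold sh
  push_cast
  linarith [Nat.le_ceil (hs K)]

/-- the shifted box -/
noncomputable def sbox (n : ℕ) : Finset (𝓞 K) :=
  (box K n).map (addLeftEmbedding ((sh K * n : ℕ) : 𝓞 K))

theorem card_sbox (n : ℕ) : (sbox K n).card = n ^ Module.finrank ℚ K := by
  unfold sbox
  rw [Finset.card_map, card_box]

theorem sbox_house {n : ℕ} {a : 𝓞 K} (h : a ∈ sbox K n) :
    house (a : K) ≤ (sh K + hs K) * n := by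
  obtain ⟨c, hc, rfl⟩ := Finset.mem_map.1 h
  obtain ⟨f, hf, rfl⟩ := mem_box K hc
  have e : ((addLeftEmbedding ((sh K * n : ℕ) : 𝓞 K) (elt K f) : 𝓞 K) : K) =
      (((sh K * n : ℕ) : ℤ) : K) + (elt K f : K) := by
    show (((((sh K * n : ℕ) : 𝓞 K)) + elt K f : 𝓞 K) : K) = _
    push_cast
    rfl
  rw [e]
  refine (house_add_le _ _).trans ?_
  rw [house_intCast]
  have h1 := elt_house K hf
  have h2 : (|((sh K * n : ℕ) : ℤ)| : ℤ) = ((sh K * n : ℕ) : ℤ) := abs_of_nonneg (by positivity)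
  rw [h2]
  push_cast
  linarith

theorem sbox_av {n : ℕ} {a : 𝓞 K} (h : a ∈ sbox K n) (w : InfinitePlace K) :
    (n : ℝ) ≤ av (Sum.inl w : Pl K) (a : K) := by
  obtain ⟨c, hc, rfl⟩ := Finset.mem_map.1 h
  obtain ⟨f, hf, rfl⟩ := mem_box K hc
  have e : ((addLeftEmbedding ((sh K * n : ℕ) : 𝓞 K) (elt K f) : 𝓞 K) : K) =
      ((sh K * n : ℕ) : K) + (elt K f : K) := by
    show (((((sh K * n : ℕ) : 𝓞 K)) + elt K f : 𝓞 K) : K) = _
    push_cast
    rfl
  rw [e]
  have h1 := (av_inl_le_house w (elt K f : K)).trans (elt_house K hf)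
  have h2 : av (Sum.inl w : Pl K) ((sh K * n : ℕ) : K) = ((sh K * n : ℕ) : ℝ) := by
    show w ((sh K * n : ℕ) : K) = _
    rw [← InfinitePlace.norm_embedding_eq, map_natCast, Complex.norm_natCast]
  have h3 : av (Sum.inl w : Pl K) ((sh K * n : ℕ) : K) ≤
      av (Sum.inl w : Pl K) (((sh K * n : ℕ) : K) + (elt K f : K)) +
      av (Sum.inl w : Pl K) (elt K f : K) := by
    have h4 := (av (Sum.inl w : Pl K)).add_le (((sh K * n : ℕ) : K) + (elt K f : K)) (-(elt K f : K))
    rw [add_neg_cancel_right, (av (Sum.inl w : Pl K)).map_neg] at h4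
    exact h4
  rw [h2] at h3
  have h5 := le_sh K
  have hn : (0 : ℝ) ≤ n := Nat.cast_nonneg n
  have h6 := mul_le_mul_of_nonneg_right h5 hn
  have h7 : ((sh K * n : ℕ) : ℝ) = sh K * n := by push_cast; ring
  rw [h7] at h3
  linarith

theorem sbox_ne {n : ℕ} (hn : 1 ≤ n) {a : 𝓞 K} (h : a ∈ sbox K n) : a ≠ 0 := by
  rintro rfl
  obtain ⟨w⟩ : Nonempty (InfinitePlace K) := inferInstance
  have h1 := sbox_av K h w
  have h2 : ((0 : 𝓞 K) : K) = 0 := rfl
  rw [h2, map_zero] at h1
  have : (1 : ℝ) ≤ n := by exact_mod_cast hn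
  linarith

theorem sbox_lg {n : ℕ} (hn : 1 ≤ n) {a : 𝓞 K} (h : a ∈ sbox K n) :
    Module.finrank ℚ K * Real.log n ≤ ∑ w : InfinitePlace K, lg (Sum.inl w : Pl K) (a : K) := by
  rw [← sum_mult, Finset.sum_mul]
  refine Finset.sum_le_sum fun w _ => ?_
  show (w.mult : ℝ) * Real.log n ≤ (w.mult : ℝ) * Real.log (av (Sum.inl w : Pl K) (a : K))
  refine mul_le_mul_of_nonneg_left ?_ (Nat.cast_nonneg _)
  refine Real.log_le_log ?_ (sbox_av K h w)
  exact_mod_cast hn

end Box

end Pool.Agent.Y668.EX
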