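import Pool.Agent.Y180.LK.Main

/-!
# Points of small height and given distance of radical and height: the upper bound
-/

set_option autoImplicit false
set_option linter.unusedSectionVars false

namespace Pool.Agent.Y668.EX

open Finset NumberField IsDedekindDomain

section Rl

variable {K : Type} [Field K] [NumberField K]

theorem nn_le_rl {x : K} (hx : Pool.Agent.TH876.Loc.Pt x) {P : Fin 3 → Pool.Agent.W223.AK.Idl K}
    (hP : Pool.Agent.W223.AK.IsP ∅ x P) :
    Real.log (Pool.Agent.TH876.Loc.nn (Pool.Agent.TH876.Loc.sp x)) ≤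
      Pool.Agent.W223.AK.rl (P 0) + Pool.Agent.W223.AK.rl (P 1) + Pool.Agent.W223.AK.rl (P 2) := by
  classical
  have hsupp : ∀ l, (P l).support ⊆ Pool.Agent.TH876.Loc.sp x := by
    intro l v hv
    rw [Finsupp.mem_support_iff] at hv
    by_contra hcon
    have h1 := Pool.Agent.W223.AK.fv_lt_of_ne hP hv
    rw [Pool.Agent.TH876.Loc.mem_sp hx, not_not] at hcon
    have h2 : Pool.Agent.H691R3.fv v (Pool.Agent.W223.AK.L l x) = 1 := by
      fin_cases l
      · exact hcon.1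
      · exact map_one _
      · exact hcon.2
    rw [h2, hcon.1, max_self] at h1
    exact lt_irrefl _ h1
  rw [Pool.Agent.W223.AK.rl_eq_sum_ite _ (hsupp 0), Pool.Agent.W223.AK.rl_eq_sum_ite _ (hsupp 1),
    Pool.Agent.W223.AK.rl_eq_sum_ite _ (hsupp 2), ← Finset.sum_add_distrib,
    ← Finset.sum_add_distrib]
  unfold Pool.Agent.TH876.Loc.nn
  rw [Real.log_prod (fun v _ => (Pool.Agent.TH876.Loc.Nv_pos v).ne')]
  refine Finset.sum_le_sum fun v hv => ?_
  have hl : 0 ≤ Real.log (Pool.Agent.H691R3.Nv v) :=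
    Real.log_nonneg (Pool.Agent.TH876.Loc.one_le_Nv v)
  have hne : ¬ (P 0 v = 0 ∧ P 1 v = 0 ∧ P 2 v = 0) := by
    rintro ⟨h0, h1, h2⟩
    rw [Pool.Agent.TH876.Loc.mem_sp hx] at hv
    apply hv
    have k0 := hP.val 0 v (Finset.notMem_empty v)
    have k1 := hP.val 1 v (Finset.notMem_empty v)
    have k2 := hP.val 2 v (Finset.notMem_empty v)
    rw [h0] at k0
    rw [h1] at k1
    rw [h2] at k2
    simp only [Nat.cast_zero, neg_zero, zpow_zero, mul_one] at k0 k1 k2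
    have e0 : Pool.Agent.W223.AK.L 0 x = x := rfl
    have e1 : Pool.Agent.W223.AK.L 1 x = 1 := rfl
    have e2 : Pool.Agent.W223.AK.L 2 x = x + 1 := rfl
    rw [e1, map_one] at k1
    rw [e0, ← k1] at k0
    rw [e2, ← k1] at k2
    exact ⟨k0, k2⟩
  by_cases h0 : P 0 v = 0 <;> by_cases h1 : P 1 v = 0 <;> by_cases h2 : P 2 v = 0 <;>
    simp [h0, h1, h2] at hne ⊢ <;> linarith

end Rl

section Count

open Pool.Agent.W223.AK Pool.Agent.W108.AK Pool.Agent.Y180.LK

variable {K : Type} [Field K] [NumberField K]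

theorem sgood_one (S : Finset (Pr K)) : SGood S 1 := by
  intro i h1 h2 v _
  have : i = 1 := by omega
  rw [this, Nat.cast_one, map_one]

/-- the bound for a cell -/
theorem cell_le {ε D : ℝ} (hε : 0 < ε) (hD : 0 < D) (hM : MBk (∅ : Finset (Pr K)) 1 ε D)
    (P : K → Fin 3 → Idl K) (G : Finset K) (L B : ℝ) (hL : 0 ≤ L) (hB : 3 / 5 * L ≤ B)
    (hG : ∀ x ∈ G, Pt x ∧ IsP ∅ x (P x) ∧
      Real.log (Pool.Agent.TH876.Loc.nn (Pool.Agent.TH876.Loc.sp x)) ≤ L ∧
      Pool.Agent.TH876.Loc.hgt x ≤ 2 / 5 * L ∧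
      Real.log (Pool.Agent.TH876.Loc.nn (Pool.Agent.TH876.Loc.sp x)) - Pool.Agent.TH876.Loc.hgt x ≤ B)
    (hcl : ∀ x ∈ G, ∀ y ∈ G, Pool.Agent.Y180.LK.Close ∅ 1 P x y) :
    (G.card : ℝ) ≤ D * Real.exp (ε * (2 / 5 * L) + B +
      (ε + 17 + 3 * cS (∅ : Finset (Pr K)) + Pool.Agent.TH876.Loc.dK K * Real.log 2)) := by
  classical
  have hcS := cS_nonneg (∅ : Finset (Pr K))
  have hdK : 0 ≤ Pool.Agent.TH876.Loc.dK K * Real.log 2 := by
    refine mul_nonneg ?_ (Real.log_nonneg (by norm_num))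
    exact Finset.sum_nonneg fun w _ => Nat.cast_nonneg _
  rcases G.eq_empty_or_nonempty with rfl | ⟨x₀, hx₀⟩
  · rw [Finset.card_empty, Nat.cast_zero]
    positivity
  obtain ⟨hpt0, hP0, hn0, hh0, hd0⟩ := hG x₀ hx₀
  have hcell : IsCell ∅ 1 G P x₀ := ⟨hx₀, fun x hx => ⟨(hG x hx).1, (hG x hx).2.1⟩,
    fun x hx => hcl x hx x₀ hx₀⟩
  obtain ⟨b1, b2⟩ := ht_le_hgt hpt0
  have n1 := rl_le_nn hpt0 hP0
  have n2 := nn_le_rl hpt0 hP0
  have hht0 := ht_nonneg x₀
  have hw : ∀ l, 2 * rl (P x₀ l) - rl (ex (P x₀ l) {1}) ≤ ht x₀ + cS (∅ : Finset (Pr K)) := by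
    intro l
    have h1 := weight (P x₀ l) 1
    have h2 := len_le hpt0 hP0 l
    rw [Finset.sum_range_one, Finset.sum_range_one] at h1
    push_cast at h1
    simp only [zero_add, one_mul] at h1
    linarith
  have w0 := hw 0
  have w1 := hw 1
  have w2 := hw 2
  have p0 := rl_nonneg (P x₀ 0)
  have p1 := rl_nonneg (P x₀ 1)
  have p2 := rl_nonneg (P x₀ 2)
  have hεt : ε * (ht x₀ + 1) ≤ ε * (2 / 5 * L) + ε := by
    have : ε * (ht x₀ + 1) ≤ ε * (2 / 5 * L + 1) := mul_le_mul_of_nonneg_left (by linarith) hε.le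
    linarith
  by_cases hR : rl (P x₀ 0) + rl (P x₀ 1) + rl (P x₀ 2) ≤ 3 / 2 * B
  · -- the smallest two radicals
    have hex : ∃ p q r : Fin 3, p ≠ q ∧ q ≠ r ∧ p ≠ r ∧ rl (P x₀ p) + rl (P x₀ q) ≤ B := by
      by_contra hcon
      push Not at hcon
      have c1 := hcon 0 1 2 (by decide) (by decide) (by decide)
      have c2 := hcon 0 2 1 (by decide) (by decide) (by decide)
      have c3 := hcon 1 2 0 (by decide) (by decide) (by decide)
      linarith
    obtain ⟨p, q, r, hpq, hqr, hpr, hle⟩ := hex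
    have h1 := hcell.b0 hD.le hM hpq hqr hpr
    refine h1.trans (mul_le_mul_of_nonneg_left (Real.exp_le_exp.2 ?_) hD.le)
    push_cast
    linarith
  · push Not at hR
    have h1 := hcell.b1 le_rfl hD.le hM
    refine h1.trans (mul_le_mul_of_nonneg_left (Real.exp_le_exp.2 ?_) hD.le)
    have h2 : (rl (P x₀ 0) + rl (P x₀ 1) + rl (P x₀ 2)) -
        (rl (ex (P x₀ 0) {1}) + rl (ex (P x₀ 1) {1}) + rl (ex (P x₀ 2) {1})) +
        max 0 (-ht x₀ +
          (rl (ex (P x₀ 0) {1}) + rl (ex (P x₀ 1) {1}) + rl (ex (P x₀ 2) {1}))) ≤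
        B + 3 * cS (∅ : Finset (Pr K)) + Pool.Agent.TH876.Loc.dK K * Real.log 2 := by
      rcases max_choice 0 (-ht x₀ +
          (rl (ex (P x₀ 0) {1}) + rl (ex (P x₀ 1) {1}) + rl (ex (P x₀ 2) {1}))) with h | h
      · rw [h]
        linarith
      · rw [h]
        linarith
    push_cast
    linarith

/-- **Upper bound.** Points with radical at most `exp L`, height at most `2 L / 5` and distance of
radical and height at most `B`, where `B ≥ 3 L / 5`. -/
theorem upper (K : Type) [Field K] [NumberField K] (ε : ℝ) (hε : 0 < ε) :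
    ∃ C : ℝ, 0 < C ∧ ∀ L B : ℝ, 0 ≤ L → 3 / 5 * L ≤ B → ∀ E : Finset K,
      (∀ x ∈ E, Pool.Agent.TH876.Loc.Pt x ∧
        Real.log (Pool.Agent.TH876.Loc.nn (Pool.Agent.TH876.Loc.sp x)) ≤ L ∧
        Pool.Agent.TH876.Loc.hgt x ≤ 2 / 5 * L ∧
        Real.log (Pool.Agent.TH876.Loc.nn (Pool.Agent.TH876.Loc.sp x)) -
          Pool.Agent.TH876.Loc.hgt x ≤ B) →
      (E.card : ℝ) ≤ C * Real.exp (ε * L + B) := by
  classical
  obtain ⟨D1, hD1, hMB⟩ := mbk_of (Pool.Agent.W108.AK.mb (∅ : Finset (Pr K))) 1 le_rfl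
    (sgood_one _) ε hε
  obtain ⟨D2, hD2, hcount⟩ := cells
    (Unit ⊕ (Fin 3 × (Fin 1 ⊕ (Unit ⊕ {v // v ∈ Spl (∅ : Finset (Pr K))}))))
    (cS (∅ : Finset (Pr K))) (ε / 2) (cS_nonneg _) (by positivity)
  have hcS := cS_nonneg (∅ : Finset (Pr K))
  refine ⟨D2 * (D1 * Real.exp (ε + 17 + 3 * cS (∅ : Finset (Pr K)) +
    Pool.Agent.TH876.Loc.dK K * Real.log 2)), by positivity, fun L B hL hB E hE => ?_⟩
  have hex : ∀ x : K, ∃ P : Fin 3 → Idl K, x ∈ E → IsP ∅ x P := by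
    intro x
    by_cases hx : x ∈ E
    · obtain ⟨P, hP⟩ := exists_isP ∅ (x := x) (hE x hx).1
      exact ⟨P, fun _ => hP⟩
    · exact ⟨fun _ => 0, fun h => absurd h hx⟩
  choose P hP using hex
  have hmain := hcount K (cf ∅ 1 P) L E hL ?_
    (D1 * Real.exp (ε * (2 / 5 * L) + B + (ε + 17 + 3 * cS (∅ : Finset (Pr K)) +
      Pool.Agent.TH876.Loc.dK K * Real.log 2))) (by positivity) ?_
  · refine hmain.trans ?_
    have h1 : D2 * Real.exp (ε / 2 * L) * (D1 * Real.exp (ε * (2 / 5 * L) + B +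
        (ε + 17 + 3 * cS (∅ : Finset (Pr K)) + Pool.Agent.TH876.Loc.dK K * Real.log 2))) =
        D2 * (D1 * Real.exp (ε + 17 + 3 * cS (∅ : Finset (Pr K)) +
          Pool.Agent.TH876.Loc.dK K * Real.log 2)) *
          Real.exp (ε / 2 * L + ε * (2 / 5 * L) + B) := by
      rw [Real.exp_add (ε * (2 / 5 * L) + B), Real.exp_add (ε * (2 / 5 * L)),
        Real.exp_add (ε / 2 * L + ε * (2 / 5 * L)), Real.exp_add (ε / 2 * L)]
      ring
    rw [h1]
    refine mul_le_mul_of_nonneg_left (Real.exp_le_exp.2 ?_) (by positivity)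
    nlinarith [mul_nonneg hε.le hL]
  · intro x hx j
    obtain ⟨hpt, hn, hh, _⟩ := hE x hx
    have hPx := hP x hx
    obtain ⟨b1, b2⟩ := ht_le_hgt hpt
    have hht : ht x ≤ L := by linarith
    have hlen : ∀ l, len (P x l) ≤ L + cS (∅ : Finset (Pr K)) := fun l => by
      have := len_le hpt hPx l
      linarith
    rcases j with _ | ⟨l, i | (b | v)⟩
    · show -cS (∅ : Finset (Pr K)) ≤ ht x ∧ ht x ≤ L + cS (∅ : Finset (Pr K))
      have := ht_nonneg x
      constructor <;> linarith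
    · show -cS (∅ : Finset (Pr K)) ≤ rl (ex (P x l) {(i : ℕ) + 1}) ∧
        rl (ex (P x l) {(i : ℕ) + 1}) ≤ L + cS (∅ : Finset (Pr K))
      have h1 := rl_nonneg (ex (P x l) {(i : ℕ) + 1})
      have h2 := rl_ex_le (P x l) {(i : ℕ) + 1}
      have h3 := hlen l
      constructor <;> linarith
    · show -cS (∅ : Finset (Pr K)) ≤ rl (ex (P x l) {m | 1 < m}) ∧
        rl (ex (P x l) {m | 1 < m}) ≤ L + cS (∅ : Finset (Pr K))
      have h1 := rl_nonneg (ex (P x l) {m | 1 < m})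
      have h2 := rl_ex_le (P x l) {m | 1 < m}
      have h3 := hlen l
      constructor <;> linarith
    · show -cS (∅ : Finset (Pr K)) ≤ lm v.1 l x ∧ lm v.1 l x ≤ L + cS (∅ : Finset (Pr K))
      have h1 := lm_ge hpt v.1 l
      have h2 := lm_le hpt v.2 l
      have h3 : Pool.Agent.H691R3.mt v.1 * Real.log 2 ≤ cS (∅ : Finset (Pr K)) :=
        Finset.single_le_sum (f := fun u : Pool.Agent.H691R3.Pl K =>
          Pool.Agent.H691R3.mt u * Real.log 2)
          (fun u _ => mul_nonneg (Pool.Agent.H691R3.mt_pos u).le (Real.log_nonneg (by norm_num)))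
          v.2
      constructor <;> linarith
  · intro G hGE hG
    refine cell_le hε hD1 hMB P G L B hL hB
      (fun x hx => ⟨(hE x (hGE hx)).1, hP x (hGE hx), (hE x (hGE hx)).2⟩) ?_
    intro x hx y hy
    exact ⟨hG (Sum.inl ()) x hx y hy,
      fun l i => hG (Sum.inr (l, Sum.inl i)) x hx y hy,
      fun l => hG (Sum.inr (l, Sum.inr (Sum.inl ()))) x hx y hy,
      fun l v hv => hG (Sum.inr (l, Sum.inr (Sum.inr ⟨v, hv⟩))) x hx y hy⟩

end Count

end Pool.Agent.Y668.EX
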