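import Pool.Agent.Y668.EX.Cnt
import Pool.Agent.Y668.EX.Upper

/-!
# Many exceptions: the lower bound
-/

set_option autoImplicit false

namespace Pool.Agent.Y668.EX

open Finset NumberField IsDedekindDomain Pool.Agent.H691R3 Pool.Agent.TH876.Loc Pool.Agent.TH876.KR
open Pool.Agent.Y728 (av_inl_le_house sum_mult)
open Pool.Agent.Y812.LK (coe_ne Ix elt elt_inj elt_add elt_ne hs hs_nonneg elt_house box card_box mem_box
  D_bound)

open Classical in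
/-- the family of points -/
theorem family (K : Type) [Field K] [NumberField K] (M ε : ℝ) (hM1 : 1 / 3 < M) (hε : 0 < ε)
    (hM2 : M + 10 * ε ≤ 2 / 5) :
    ∃ c L0 : ℝ, 0 < c ∧ 0 < L0 ∧ ∀ L : ℝ, L0 ≤ L → ∃ F : Finset K,
      (∀ x ∈ F, Pt x ∧ Real.log (nn (sp x)) ≤ L ∧ hgt x ≤ 2 / 5 * L ∧
        Real.log (nn (sp x)) - hgt x ≤ hgt x + (1 - 2 * M - 6 * ε) * L) ∧
      c * Real.exp ((1 - M - 7 / 2 * ε) * L) ≤ (F.card : ℝ) + 1 := by
  have hd : 0 < Module.finrank ℚ K := Module.finrank_pos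
  obtain ⟨d, hdd⟩ : ∃ d : ℕ, d = Module.finrank ℚ K := ⟨_, rfl⟩
  rw [← hdd] at hd
  have hd0 : (0 : ℝ) < d := by exact_mod_cast hd
  have hd1 : (1 : ℝ) ≤ d := by exact_mod_cast hd
  have hs0 := hs_nonneg K
  have hsh := le_sh K
  obtain ⟨c1, hc1⟩ : ∃ c1 : ℝ, c1 = sh K + hs K := ⟨_, rfl⟩
  have hc11 : 1 ≤ c1 := by rw [hc1]; linarith
  obtain ⟨c3, hc3⟩ : ∃ c3 : ℝ, c3 = hs K + 1 := ⟨_, rfl⟩
  have hc31 : 1 ≤ c3 := by rw [hc3]; linarith
  obtain ⟨c2, hc2⟩ : ∃ c2 : ℝ, c2 = 81 * c1 ^ 2 * c3 := ⟨_, rfl⟩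
  have hc1sq : c1 ≤ c1 ^ 2 := by nlinarith
  have hc23 : c3 ≤ c2 := by
    rw [hc2]
    have h1 : (1 : ℝ) ≤ 81 * c1 ^ 2 := by nlinarith
    calc c3 = 1 * c3 := (one_mul _).symm
      _ ≤ _ := mul_le_mul_of_nonneg_right h1 (by linarith)
  have hc21 : 9 * c1 ≤ c2 := by
    rw [hc2]
    have h1 : 81 * c1 ^ 2 * 1 ≤ 81 * c1 ^ 2 * c3 := mul_le_mul_of_nonneg_left hc31 (by positivity)
    nlinarith
  have hc2p : 0 < c2 := by linarith
  have hc2one : 1 ≤ c2 := by linarith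
  have hc3p : 0 < c3 := by linarith
  obtain ⟨CD, hCD, hDb⟩ := D_bound K (ε * d / 4) (by positivity)
  obtain ⟨c, hc⟩ : ∃ c : ℝ, c = (1 / (c2 * c3)) ^ d / (CD * CD) := ⟨_, rfl⟩
  have hc0 : 0 < c := by rw [hc]; positivity
  have hlc2 : 0 ≤ Real.log c2 := Real.log_nonneg hc2one
  have hl2 : 0 ≤ (d : ℝ) * Real.log 2 := mul_nonneg hd0.le (Real.log_nonneg (by norm_num))
  refine ⟨c, d * Real.log c2 / ε + d * Real.log 2 / ε + 1, hc0, by positivity, fun L hL => ?_⟩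
  have hq1 : 0 ≤ d * Real.log c2 / ε := by positivity
  have hq2 : 0 ≤ d * Real.log 2 / ε := by positivity
  have hLp : 0 < L := by linarith
  have hLc2 : d * Real.log c2 ≤ L * ε := by
    rw [← div_le_iff₀ hε]
    linarith
  have hLl2 : d * Real.log 2 ≤ L * ε := by
    rw [← div_le_iff₀ hε]
    linarith
  obtain ⟨T, hT⟩ : ∃ T : ℝ, T = Real.exp ((M + 3 * ε) * L / d) := ⟨_, rfl⟩
  obtain ⟨E1, hE1⟩ : ∃ E1 : ℝ, E1 = Real.exp ((3 * M - 1 + 9 * ε) * L / d) := ⟨_, rfl⟩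
  obtain ⟨E3, hE3⟩ : ∃ E3 : ℝ, E3 = Real.exp ((2 - 5 * M - 15 * ε) * L / d) := ⟨_, rfl⟩
  have hTp : 0 < T := by rw [hT]; exact Real.exp_pos _
  have hE1p : 0 < E1 := by rw [hE1]; exact Real.exp_pos _
  have hE3p : 0 < E3 := by rw [hE3]; exact Real.exp_pos _
  have hE11 : 1 ≤ E1 := by
    rw [hE1]
    refine Real.one_le_exp ?_
    have : 0 ≤ 3 * M - 1 + 9 * ε := by linarith
    positivity
  have hTE : T = E3 * (E1 * E1) := by
    rw [hT, hE1, hE3, ← Real.exp_add, ← Real.exp_add]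
    congr 1
    ring
  have hE3c : c2 ≤ E3 := by
    rw [hE3, ← Real.log_le_iff_le_exp hc2p, le_div_iff₀ hd0]
    have h1 : ε ≤ 2 - 5 * M - 15 * ε := by linarith
    have h2 : ε * L ≤ (2 - 5 * M - 15 * ε) * L := mul_le_mul_of_nonneg_right h1 hLp.le
    linarith
  have hE1E1 : E1 ≤ E1 * E1 := by nlinarith
  have hTc2 : c2 * (E1 * E1) ≤ T := by
    rw [hTE]
    exact mul_le_mul_of_nonneg_right hE3c (by positivity)
  have hT1 : 1 ≤ T := by nlinarith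
  have hTc3 : c3 ≤ T := by nlinarith
  -- the sizes
  obtain ⟨n1, hn1⟩ : ∃ n1 : ℕ, n1 = ⌈8 * E1⌉₊ := ⟨_, rfl⟩
  obtain ⟨n3, hn3⟩ : ∃ n3 : ℕ, n3 = ⌊E3 / c2⌋₊ := ⟨_, rfl⟩
  obtain ⟨nb, hnb⟩ : ∃ nb : ℕ, nb = ⌊T / c3⌋₊ := ⟨_, rfl⟩
  have hn1l : 8 * E1 ≤ n1 := by rw [hn1]; exact Nat.le_ceil _
  have hn1u : (n1 : ℝ) ≤ 9 * E1 := by
    rw [hn1]
    have := (Nat.ceil_lt_add_one (show 0 ≤ 8 * E1 by positivity)).le
    linarith
  have hn1' : 1 ≤ n1 := by
    have : (1 : ℝ) ≤ n1 := by linarith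
    exact_mod_cast this
  have hfl : ∀ z : ℝ, 1 ≤ z → 1 ≤ ⌊z⌋₊ ∧ (⌊z⌋₊ : ℝ) ≤ z ∧ z / 2 ≤ (⌊z⌋₊ : ℝ) := by
    intro z hz
    have h1 : 1 ≤ ⌊z⌋₊ := (Nat.one_le_floor_iff _).2 hz
    have h2 : (1 : ℝ) ≤ (⌊z⌋₊ : ℝ) := by exact_mod_cast h1
    have h3 := Nat.lt_floor_add_one z
    refine ⟨h1, Nat.floor_le (by linarith), by linarith⟩
  obtain ⟨hn31, hn3u, hn3l⟩ := hfl (E3 / c2) (by rw [le_div_iff₀ hc2p]; linarith)
  obtain ⟨hnb1, hnbu, hnbl⟩ := hfl (T / c3) (by rw [le_div_iff₀ hc3p]; linarith)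
  rw [← hn3] at hn31 hn3u hn3l
  rw [← hnb] at hnb1 hnbu hnbl
  -- the boxes
  obtain ⟨U, hU⟩ : ∃ U, U = sbox K n1 := ⟨_, rfl⟩
  obtain ⟨W, hW⟩ : ∃ W, W = box K n3 := ⟨_, rfl⟩
  obtain ⟨B, hB⟩ : ∃ B, B = box K nb := ⟨_, rfl⟩
  have hU0 : ∀ a ∈ U, a ≠ 0 := fun a ha => sbox_ne K hn1' (hU ▸ ha)
  have hbox0 : ∀ (n : ℕ) (a : 𝓞 K), a ∈ box K n → a ≠ 0 ∧ house (a : K) ≤ hs K * n := by
    intro n a ha
    obtain ⟨f, hf, rfl⟩ := mem_box K ha
    exact ⟨elt_ne K fun i => (hf i).1, elt_house K hf⟩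
  have hW0 : ∀ a ∈ W, a ≠ 0 := fun a ha => (hbox0 n3 a (hW ▸ ha)).1
  have hB0 : ∀ a ∈ B, a ≠ 0 := fun a ha => (hbox0 nb a (hB ▸ ha)).1
  have hUh : ∀ a ∈ U, house (a : K) ≤ 9 * c1 * E1 := by
    intro a ha
    have h1 := sbox_house K (hU ▸ ha : a ∈ sbox K n1)
    rw [← hc1] at h1
    refine h1.trans ?_
    have := mul_le_mul_of_nonneg_left hn1u (by linarith : 0 ≤ c1)
    linarith
  have hUT : ∀ a ∈ U, house (a : K) ≤ T := by
    intro a ha
    refine (hUh a ha).trans ?_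
    calc 9 * c1 * E1 ≤ c2 * (E1 * E1) := mul_le_mul hc21 hE1E1 hE1p.le hc2p.le
      _ ≤ T := hTc2
  have hWh : ∀ a ∈ W, house (a : K) ≤ c3 * (E3 / c2) := by
    intro a ha
    refine (hbox0 n3 a (hW ▸ ha)).2.trans ?_
    exact mul_le_mul (by rw [hc3]; linarith) hn3u (Nat.cast_nonneg _) hc3p.le
  have hBT : ∀ a ∈ B, house (a : K) ≤ T := by
    intro a ha
    refine (hbox0 nb a (hB ▸ ha)).2.trans ?_
    calc hs K * nb ≤ c3 * (T / c3) := mul_le_mul (by rw [hc3]; linarith) hnbu (Nat.cast_nonneg _) hc3p.le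
      _ = T := by field_simp
  obtain ⟨A, hA⟩ : ∃ A, A = (U ×ˢ W).image (fun p : 𝓞 K × 𝓞 K => p.1 ^ 2 * p.2) := ⟨_, rfl⟩
  have hA' : ∀ a ∈ A, ∃ u ∈ U, ∃ k ∈ W, a = u ^ 2 * k := by
    intro a ha
    rw [hA] at ha
    obtain ⟨p, hp, rfl⟩ := Finset.mem_image.1 ha
    have h1 := Finset.mem_product.1 hp
    exact ⟨p.1, h1.1, p.2, h1.2, rfl⟩
  have hA0 : ∀ a ∈ A, a ≠ 0 := by
    intro a ha
    obtain ⟨u, hu, k, hk, rfl⟩ := hA' a ha
    exact mul_ne_zero (pow_ne_zero 2 (hU0 _ hu)) (hW0 _ hk)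
  have hAT : ∀ a ∈ A, house (a : K) ≤ T := by
    intro a ha
    obtain ⟨u, hu, k, hk, rfl⟩ := hA' a ha
    have e : ((u ^ 2 * k : 𝓞 K) : K) = (u : K) * (u : K) * (k : K) := by
      have : ((u ^ 2 * k : 𝓞 K) : K) = (u : K) ^ 2 * (k : K) := by push_cast; rfl
      rw [this]; ring
    rw [e]
    have hu1 := hUh u hu
    have hk1 := hWh k hk
    have hu0 := house_nonneg (u : K)
    calc house ((u : K) * (u : K) * (k : K)) ≤ house ((u : K) * (u : K)) * house (k : K) :=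
          house_mul_le _ _
      _ ≤ ((9 * c1 * E1) * (9 * c1 * E1)) * (c3 * (E3 / c2)) := by
          refine mul_le_mul ?_ hk1 (house_nonneg _) (by positivity)
          exact (house_mul_le _ _).trans (mul_le_mul hu1 hu1 hu0 (by positivity))
      _ = T := by
          rw [hTE, hc2]
          field_simp
          ring
  -- the number of quotients
  obtain ⟨D, hD⟩ : ∃ D : ℕ, D = ⌊CD * T ^ (ε * d / 4)⌋₊ := ⟨_, rfl⟩
  have hDu : (D : ℝ) ≤ CD * T ^ (ε * d / 4) := by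
    rw [hD]; exact Nat.floor_le (by positivity)
  have hZ : ∀ a ∈ U ∪ (U ×ˢ W).image (fun p => p.1 ^ 2 * p.2) ∪ B ∪ {1}, a ≠ 0 ∧ house (a : K) ≤ T := by
    intro a ha
    rw [← hA] at ha
    rcases Finset.mem_union.1 ha with ha | ha
    · rcases Finset.mem_union.1 ha with ha | ha
      · rcases Finset.mem_union.1 ha with ha | ha
        · exact ⟨hU0 a ha, hUT a ha⟩
        · exact ⟨hA0 a ha, hAT a ha⟩
      · exact ⟨hB0 a ha, hBT a ha⟩
    · rw [Finset.mem_singleton] at ha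
      subst ha
      refine ⟨one_ne_zero, ?_⟩
      have e : ((1 : 𝓞 K) : K) = ((1 : ℤ) : K) := by push_cast; rfl
      rw [e, house_intCast]
      norm_num
      exact hT1
  have hfam := fam_count U W B hU0 hW0 hB0 D (fun a ha b hb => by
    rw [hD]
    exact Nat.le_floor (hDb T hT1 _ hZ a ha b hb))
  rw [← hA] at hfam
  obtain ⟨Q, hQ⟩ : ∃ Q, Q = (A ×ˢ B).image (fun p : 𝓞 K × 𝓞 K => (p.1 : K) / (p.2 : K)) := ⟨_, rfl⟩
  rw [← hQ, hU, hW, hB, card_sbox, card_box, card_box, ← hdd] at hfam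
  have hcardQ : c * Real.exp ((1 - M - 7 / 2 * ε) * L) ≤ (Q.card : ℝ) := by
    have h1 : ((n1 ^ d * n3 ^ d * nb ^ d : ℕ) : ℝ) ≤ ((Q.card * (D * D) : ℕ) : ℝ) := by
      exact_mod_cast hfam
    push_cast at h1
    have h2 : (1 / (c2 * c3)) ^ d * Real.exp ((1 - M - 3 * ε) * L) ≤
        (n1 : ℝ) ^ d * (n3 : ℝ) ^ d * (nb : ℝ) ^ d := by
      rw [← mul_pow, ← mul_pow]
      have h3 : Real.exp ((1 - M - 3 * ε) * L) = (E1 * E3 * T) ^ d := by
        rw [hE1, hE3, hT, ← Real.exp_add, ← Real.exp_add, ← Real.exp_nat_mul]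
        congr 1
        field_simp
        ring
      rw [h3, ← mul_pow]
      refine pow_le_pow_left₀ (by positivity) ?_ _
      calc 1 / (c2 * c3) * (E1 * E3 * T) = E1 * (E3 / c2) * (T / c3) := by field_simp
        _ ≤ (8 * E1) * (E3 / c2 / 2) * (T / c3 / 2) := by
            have : 0 ≤ E1 * (E3 / c2) * (T / c3) := by positivity
            linarith
        _ ≤ n1 * n3 * nb := by
            refine mul_le_mul (mul_le_mul hn1l hn3l (by positivity) (Nat.cast_nonneg _)) hnbl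
              (by positivity) (by positivity)
    have h4 : (D : ℝ) * D ≤ CD * CD * Real.exp (ε / 2 * L) := by
      have h5 : T ^ (ε * d / 4) * T ^ (ε * d / 4) ≤ Real.exp (ε / 2 * L) := by
        rw [← Real.rpow_add hTp, hT, ← Real.exp_mul]
        refine Real.exp_le_exp.2 ?_
        have h6 : (M + 3 * ε) * L / d * (ε * d / 4 + ε * d / 4) = (M + 3 * ε) * (ε / 2 * L) := by
          field_simp
          ring
        rw [h6]
        have h7 : M + 3 * ε ≤ 1 := by linarith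
        have h8 : 0 ≤ ε / 2 * L := by positivity
        calc (M + 3 * ε) * (ε / 2 * L) ≤ 1 * (ε / 2 * L) := mul_le_mul_of_nonneg_right h7 h8
          _ = _ := one_mul _
      calc (D : ℝ) * D ≤ (CD * T ^ (ε * d / 4)) * (CD * T ^ (ε * d / 4)) :=
            mul_le_mul hDu hDu (Nat.cast_nonneg _) (by positivity)
        _ = CD * CD * (T ^ (ε * d / 4) * T ^ (ε * d / 4)) := by ring
        _ ≤ _ := mul_le_mul_of_nonneg_left h5 (by positivity)
    have h5 : (1 / (c2 * c3)) ^ d * Real.exp ((1 - M - 3 * ε) * L) ≤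
        Q.card * (CD * CD * Real.exp (ε / 2 * L)) :=
      h2.trans (h1.trans (mul_le_mul_of_nonneg_left h4 (Nat.cast_nonneg _)))
    have h6 : Real.exp ((1 - M - 3 * ε) * L) =
        Real.exp ((1 - M - 7 / 2 * ε) * L) * Real.exp (ε / 2 * L) := by
      rw [← Real.exp_add]
      congr 1
      ring
    rw [h6] at h5
    have h7 : (1 / (c2 * c3)) ^ d = c * (CD * CD) := by
      rw [hc]; field_simp
    rw [h7] at h5
    have h8 : 0 < CD * CD * Real.exp (ε / 2 * L) := by positivity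
    refine le_of_mul_le_mul_right ?_ h8
    calc c * Real.exp ((1 - M - 7 / 2 * ε) * L) * (CD * CD * Real.exp (ε / 2 * L)) =
          c * (CD * CD) * (Real.exp ((1 - M - 7 / 2 * ε) * L) * Real.exp (ε / 2 * L)) := by ring
      _ ≤ _ := h5
  refine ⟨Q.erase (-1), fun x hx => ?_, ?_⟩
  · obtain ⟨hx1, hx2⟩ := Finset.mem_erase.1 hx
    rw [hQ] at hx2
    obtain ⟨p, hp, rfl⟩ := Finset.mem_image.1 hx2
    obtain ⟨ha, hb⟩ := Finset.mem_product.1 hp
    obtain ⟨u, hu, k, hk, hak⟩ := hA' p.1 ha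
    have hab : p.1 + p.2 ≠ 0 := by
      intro h
      apply hx1
      have hp2 := coe_ne (hB0 p.2 hb)
      have h3 : (p.1 : K) + (p.2 : K) = 0 := by
        have e : ((p.1 + p.2 : 𝓞 K) : K) = (p.1 : K) + (p.2 : K) := rfl
        rw [← e, h]
        rfl
      rw [div_eq_iff hp2]
      linear_combination h3
    obtain ⟨g1, g2, g3⟩ := sp_ineq (hA0 _ ha) (hB0 _ hb) hab (hU0 u hu)
      ⟨k, hak⟩ hT1 (hAT _ ha) (hBT _ hb)
    have g4 := sbox_lg K hn1' (hU ▸ hu : u ∈ sbox K n1)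
    rw [← hdd] at g2 g3 g4
    have g5 : Real.log (2 * T) = Real.log 2 + (M + 3 * ε) * L / d := by
      rw [Real.log_mul (by norm_num) hTp.ne', hT, Real.log_exp]
    have g6 : 3 * Real.log 2 + (3 * M - 1 + 9 * ε) * L / d ≤ Real.log n1 := by
      have h1 : Real.log (8 * E1) ≤ Real.log n1 := Real.log_le_log (by positivity) hn1l
      rw [Real.log_mul (by norm_num) hE1p.ne', hE1, Real.log_exp] at h1
      have h2 : Real.log 8 = 3 * Real.log 2 := by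
        rw [show (8 : ℝ) = 2 ^ 3 by norm_num, Real.log_pow]; push_cast; ring
      rw [h2] at h1
      exact h1
    have g7 : (d : ℝ) * Real.log (2 * T) = d * Real.log 2 + (M + 3 * ε) * L := by
      rw [g5]; field_simp
    have g8 : (d : ℝ) * (3 * Real.log 2) + (3 * M - 1 + 9 * ε) * L ≤ d * Real.log n1 := by
      have h1 := mul_le_mul_of_nonneg_left g6 hd0.le
      have h2 : (d : ℝ) * (3 * Real.log 2 + (3 * M - 1 + 9 * ε) * L / d) =
          d * (3 * Real.log 2) + (3 * M - 1 + 9 * ε) * L := by field_simp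
      rw [h2] at h1
      exact h1
    rw [g7] at g2 g3
    refine ⟨g1, by linarith, ?_, by linarith⟩
    have g9 : (M + 4 * ε) * L ≤ 2 / 5 * L := mul_le_mul_of_nonneg_right (by linarith) hLp.le
    linarith
  · refine hcardQ.trans ?_
    have h1 := Finset.pred_card_le_card_erase (s := Q) (a := (-1 : K))
    have h2 : Q.card ≤ (Q.erase (-1)).card + 1 := by omega
    exact_mod_cast h2

/-- **Lower bound.** There are many points with radical at most `exp L` and height between `M L` and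
`2 L / 5`. -/
theorem lower (K : Type) [Field K] [NumberField K] (M ε : ℝ) (hM1 : 1 / 3 < M) (hε : 0 < ε)
    (hM2 : M + 10 * ε ≤ 2 / 5) :
    ∃ L0 : ℝ, 0 < L0 ∧ ∀ L : ℝ, L0 ≤ L → ∃ F : Finset K,
      (∀ x ∈ F, Pt x ∧ Real.log (nn (sp x)) ≤ L ∧ M * L ≤ hgt x ∧ hgt x ≤ 2 / 5 * L) ∧
      Real.exp ((1 - M - 5 * ε) * L) ≤ (F.card : ℝ) := by
  classical
  obtain ⟨c, L1, hc, hL1, hfam⟩ := family K M ε hM1 hε hM2
  obtain ⟨C, hC, hup⟩ := upper K ε hε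
  refine ⟨max L1 (Real.log ((2 + C) / c) / (3 / 2 * ε)), lt_max_of_lt_left hL1, fun L hL => ?_⟩
  have hLL1 : L1 ≤ L := (le_max_left _ _).trans hL
  have hL2 : Real.log ((2 + C) / c) / (3 / 2 * ε) ≤ L := (le_max_right _ _).trans hL
  have hLp : 0 < L := by linarith
  obtain ⟨F0, hF0, hcard⟩ := hfam L hLL1
  have h1 := hup L ((1 - M - 6 * ε) * L) hLp.le (mul_le_mul_of_nonneg_right (by linarith) hLp.le)
    (F0.filter fun x => ¬ M * L ≤ hgt x) (fun x hx => by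
      obtain ⟨hx1, hx2⟩ := Finset.mem_filter.1 hx
      obtain ⟨a1, a2, a4, a3⟩ := hF0 x hx1
      rw [not_le] at hx2
      refine ⟨a1, a2, a4, ?_⟩
      · have e : (1 - M - 6 * ε) * L = M * L + (1 - 2 * M - 6 * ε) * L := by ring
        rw [e]
        linarith)
  refine ⟨F0.filter fun x => M * L ≤ hgt x, fun x hx => ?_, ?_⟩
  · obtain ⟨hx1, hx2⟩ := Finset.mem_filter.1 hx
    obtain ⟨a1, a2, a4, _⟩ := hF0 x hx1
    exact ⟨a1, a2, hx2, a4⟩
  have h2 : (F0.card : ℝ) = ((F0.filter fun x => M * L ≤ hgt x).card : ℝ) +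
      ((F0.filter fun x => ¬ M * L ≤ hgt x).card : ℝ) := by
    exact_mod_cast (Finset.card_filter_add_card_filter_not _).symm
  have h3 : ε * L + (1 - M - 6 * ε) * L = (1 - M - 5 * ε) * L := by ring
  rw [h3] at h1
  have h4 : (1 - M - 7 / 2 * ε) * L = 3 / 2 * ε * L + (1 - M - 5 * ε) * L := by ring
  rw [h4, Real.exp_add] at hcard
  have h5 : (2 + C) / c ≤ Real.exp (3 / 2 * ε * L) := by
    rw [← Real.log_le_iff_le_exp (by positivity)]
    rw [div_le_iff₀ (by positivity)] at hL2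
    linarith
  rw [div_le_iff₀ hc] at h5
  have h6 : 1 ≤ Real.exp ((1 - M - 5 * ε) * L) := by
    refine Real.one_le_exp (mul_nonneg (by linarith) hLp.le)
  have h7 : (2 + C) * Real.exp ((1 - M - 5 * ε) * L) ≤
      c * (Real.exp (3 / 2 * ε * L) * Real.exp ((1 - M - 5 * ε) * L)) := by
    have := mul_le_mul_of_nonneg_right h5 (Real.exp_pos ((1 - M - 5 * ε) * L)).le
    linarith
  linarith

end Pool.Agent.Y668.EX
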