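import Pool.Agent.Y668.EX.Lower
import Pool.Agent.Y728.AK.Final

/-!
# The exact size of the exceptional set over a number field
-/

set_option autoImplicit false

namespace Pool.Agent.Y668.EX

open Filter Topology
open Finset NumberField IsDedekindDomain Pool.Agent.H691R3 Pool.Agent.TH876.Loc
open Pool.Agent.Y728.AK (AlmostAll almost_allK height3 height3_eq ExcT radT_eq exc_small points_lower)
open Pool.Agent.Y728 (radT PointsT exp_radT radical_count nn_le_mul)

/-- an exponent from upper and lower bounds -/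
theorem tendsto_exponent {f : ℝ → ℝ} {L : ℝ}
    (h1 : ∀ ε : ℝ, 0 < ε → ∃ C : ℝ, 0 < C ∧ ∀ X : ℝ, 1 ≤ X → f X ≤ C * X ^ (L + ε))
    (h2 : ∀ ε : ℝ, 0 < ε → ∃ X₀ : ℝ, ∀ X : ℝ, X₀ ≤ X → X ^ (L - ε) ≤ f X) :
    Tendsto (fun X : ℝ => Real.log (f X) / Real.log X) atTop (𝓝 L) := by
  rw [Metric.tendsto_atTop]
  intro ε hε
  obtain ⟨C, hC, hup⟩ := h1 (ε / 3) (by positivity)
  obtain ⟨X₀, hlo⟩ := h2 (ε / 3) (by positivity)
  have ht : Tendsto (fun X : ℝ => ε / 3 * Real.log X) atTop atTop :=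
    Real.tendsto_log_atTop.const_mul_atTop (by positivity)
  obtain ⟨X₁, hX₁⟩ := eventually_atTop.1 (ht.eventually (eventually_ge_atTop (Real.log C)))
  refine ⟨max (max X₀ X₁) 2, fun X hX => ?_⟩
  have hX0 : X₀ ≤ X := (le_max_left _ _).trans ((le_max_left _ _).trans hX)
  have hX1 : X₁ ≤ X := (le_max_right _ _).trans ((le_max_left _ _).trans hX)
  have hX2 : 2 ≤ X := (le_max_right _ _).trans hX
  have hXp : 0 < X := by linarith
  have hl : 0 < Real.log X := Real.log_pos (by linarith)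
  have hf0 : 0 < f X := lt_of_lt_of_le (by positivity) (hlo X hX0)
  have e1 : Real.log (f X) ≤ Real.log C + (L + ε / 3) * Real.log X := by
    rw [← Real.log_rpow hXp, ← Real.log_mul hC.ne' (by positivity)]
    exact Real.log_le_log hf0 (hup X (by linarith))
  have e2 : (L - ε / 3) * Real.log X ≤ Real.log (f X) := by
    rw [← Real.log_rpow hXp]
    exact Real.log_le_log (by positivity) (hlo X hX0)
  have e3 := hX₁ X hX1
  rw [Real.dist_eq, abs_lt]
  have hεl : 0 < ε * Real.log X := by positivity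
  constructor
  · rw [neg_lt_sub_iff_lt_add, ← sub_lt_iff_lt_add', lt_div_iff₀ hl]
    linarith
  · rw [sub_lt_iff_lt_add', div_lt_iff₀ hl]
    linarith

section Affine

variable {K : Type} [Field K] [NumberField K]

open Classical in
/-- the exceptions of small height -/
theorem upper_small (T : Finset (Pr K)) {M : ℝ} (hM1 : 0 < M) (hM2 : M ≤ 2 / 5) {ε : ℝ} (hε : 0 < ε) :
    ∃ C : ℝ, 0 < C ∧ ∀ X : ℝ, 1 ≤ X → ∀ E : Finset K, (∀ x ∈ E, Pt x ∧ (nn (sp x \ T) ≤ X ∧
      M * Real.log (nn (sp x \ T)) ≤ hgt x ∧ hgt x ≤ 2 / 5 * Real.log (nn T * X))) →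
      (E.card : ℝ) ≤ C * X ^ (1 - M + ε) := by
  obtain ⟨C, hC, hup⟩ := upper K ε hε
  obtain ⟨t, ht⟩ : ∃ t, t = nn T := ⟨_, rfl⟩
  have ht1 : 1 ≤ t := by rw [ht]; exact one_le_nn T
  have ht0 : 0 < t := by linarith
  have hlt : 0 ≤ Real.log t := Real.log_nonneg ht1
  refine ⟨C * (t * t ^ (1 - M + ε)), by positivity, fun X hX E hE => ?_⟩
  have hX0 : 0 < X := by linarith
  have hlX : 0 ≤ Real.log X := Real.log_nonneg hX
  have hl : Real.log (t * X) = Real.log t + Real.log X := Real.log_mul ht0.ne' hX0.ne'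
  have hsp : ∀ x : K, Real.log (nn (sp x)) ≤ Real.log t + Real.log (nn (sp x \ T)) := by
    intro x
    rw [ht, ← Real.log_mul (nn_pos _).ne' (nn_pos _).ne']
    exact Real.log_le_log (nn_pos _) (nn_le_mul (sp x) T)
  have h1 := hup (Real.log (t * X)) (Real.log t + (1 - M) * Real.log (t * X))
    (by rw [hl]; linarith)
    (by
      have h2 : 0 ≤ Real.log (t * X) := by rw [hl]; linarith
      have h3 : 3 / 5 * Real.log (t * X) ≤ (1 - M) * Real.log (t * X) :=
        mul_le_mul_of_nonneg_right (by linarith) h2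
      linarith)
    E (fun x hx => by
      obtain ⟨a1, a2, a3, a4⟩ := hE x hx
      rw [← ht] at a4
      have a5 : Real.log (nn (sp x \ T)) ≤ Real.log X := Real.log_le_log (nn_pos _) a2
      have a6 := hsp x
      refine ⟨a1, by rw [hl]; linarith, a4, ?_⟩
      have a7 : (1 - M) * Real.log (nn (sp x \ T)) ≤ (1 - M) * Real.log (t * X) :=
        mul_le_mul_of_nonneg_left (by rw [hl]; linarith) (by linarith)
      have a8 : (1 - M) * Real.log (nn (sp x \ T)) =
          Real.log (nn (sp x \ T)) - M * Real.log (nn (sp x \ T)) := by ring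
      linarith)
  refine h1.trans (le_of_eq ?_)
  have e1 : ε * Real.log (t * X) + (Real.log t + (1 - M) * Real.log (t * X)) =
      Real.log t + Real.log (t * X) * (1 - M + ε) := by ring
  rw [e1, Real.exp_add, Real.exp_log ht0, ← Real.rpow_def_of_pos (by positivity),
    Real.mul_rpow ht0.le hX0.le]
  ring

open Classical in
/-- the exceptions of all heights -/
theorem upper_all (K : Type) [Field K] [NumberField K] :
    ∃ M₀ : ℝ, 1 / 3 < M₀ ∧ M₀ ≤ 3 / 8 ∧ ∀ (T : Finset (Pr K)) (M : ℝ), 1 / 3 < M → M ≤ M₀ →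
      ∀ ε : ℝ, 0 < ε → ∃ C : ℝ, 0 < C ∧ ∀ X : ℝ, 1 ≤ X → ∀ E : Finset K,
      (∀ x ∈ E, Pt x ∧ (nn (sp x \ T) ≤ X ∧ M * Real.log (nn (sp x \ T)) ≤ hgt x)) →
      (E.card : ℝ) ≤ C * X ^ (1 - M + ε) := by
  classical
  obtain ⟨ν, hν, C1, hC1, h1⟩ := almost_allK K (1 / 15) (by norm_num)
  refine ⟨1 / 3 + min ν (1 / 24), by
    have : 0 < min ν (1 / 24) := lt_min hν (by norm_num)
    linarith, by
    have : min ν (1 / 24) ≤ 1 / 24 := min_le_right _ _
    linarith, fun T M hM hM0 ε hε => ?_⟩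
  have hMν : M ≤ 1 / 3 + ν := by
    have : min ν (1 / 24) ≤ ν := min_le_left _ _
    linarith
  have hM2 : M ≤ 2 / 5 := by
    have : min ν (1 / 24) ≤ 1 / 24 := min_le_right _ _
    linarith
  obtain ⟨C, hC, hup⟩ := upper_small T (by linarith) hM2 hε
  obtain ⟨t, ht⟩ : ∃ t, t = nn T := ⟨_, rfl⟩
  have ht1 : 1 ≤ t := by rw [ht]; exact one_le_nn T
  have ht0 : 0 < t := by linarith
  refine ⟨C + C1 * t ^ |2 / 3 - ν|, by positivity, fun X hX E hE => ?_⟩
  have hX0 : 0 < X := by linarith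
  obtain ⟨E1, hE1⟩ : ∃ E1, E1 = E.filter fun x => hgt x ≤ 2 / 5 * Real.log (t * X) := ⟨_, rfl⟩
  obtain ⟨E2, hE2⟩ : ∃ E2, E2 = E.filter fun x => ¬ hgt x ≤ 2 / 5 * Real.log (t * X) := ⟨_, rfl⟩
  have hcard : E.card = E1.card + E2.card := by
    rw [hE1, hE2]
    exact (Finset.card_filter_add_card_filter_not _).symm
  have k1 : (E1.card : ℝ) ≤ C * X ^ (1 - M + ε) := by
    refine hup X hX E1 fun x hx => ?_
    rw [hE1, Finset.mem_filter] at hx
    obtain ⟨a1, a2, a3⟩ := hE x hx.1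
    rw [← ht]
    exact ⟨a1, a2, a3, hx.2⟩
  have k2 : (E2.card : ℝ) ≤ C1 * t ^ |2 / 3 - ν| * X ^ (1 - M + ε) := by
    have h2 := h1 (t * X) (by nlinarith) E2 (fun x hx => by
      rw [hE2, Finset.mem_filter, not_le] at hx
      obtain ⟨a1, a2, a3⟩ := hE x hx.1
      refine ⟨a1, ?_, ?_⟩
      · rw [ht]
        exact (nn_le_mul (sp x) T).trans (mul_le_mul_of_nonneg_left a2 (nn_pos _).le)
      · have e : (1 / 3 + 1 / 15 : ℝ) = 2 / 5 := by norm_num
        rw [e]
        exact hx.2.le)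
    refine h2.trans ?_
    rw [Real.mul_rpow ht0.le hX0.le, ← mul_assoc]
    refine mul_le_mul ?_ (Real.rpow_le_rpow_of_exponent_le hX (by linarith)) (by positivity)
      (by positivity)
    exact mul_le_mul_of_nonneg_left (Real.rpow_le_rpow_of_exponent_le ht1 (le_abs_self _)) hC1.le
  rw [hcard]
  push_cast
  linarith

end Affine

section Proj

variable {K : Type} [Field K] [NumberField K]

/-- the exceptions of height at most `2 / 5` of the logarithm of the bound for the radical -/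
def ExcS (T : Set (HeightOneSpectrum (𝓞 K))) (M X : ℝ) : Set (Projectivization K (Fin 3 → K)) :=
  {P | ∃ (x : Fin 3 → K) (hx : x ≠ 0), P = Projectivization.mk K x hx ∧ x 0 + x 1 + x 2 = 0 ∧
    x 0 * x 1 * x 2 ≠ 0 ∧ Real.exp (radT T x) ≤ X ∧ M * radT T x ≤ height3 x ∧
    height3 x ≤ 2 / 5 * Real.log X}

theorem finite_exc (T : Set (Pr K)) (hT : T.Finite) (M X : ℝ) : (ExcT T M X).Finite := by
  obtain ⟨C, hC⟩ := radical_count K T hT 1 one_pos
  refine ((hC (max X 1) (le_max_right _ _)).1).subset ?_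
  rintro P ⟨x, hx, h1, h2, h3, h4, -⟩
  exact ⟨x, hx, h1, h2, h3, h4.trans (le_max_left _ _)⟩

theorem excS_sub (T : Set (Pr K)) (M X : ℝ) : ExcS T M X ⊆ ExcT T M X := by
  rintro P ⟨x, hx, h1, h2, h3, h4, h5, -⟩
  exact ⟨x, hx, h1, h2, h3, h4, h5⟩

/-- a lower bound for the number of exceptions -/
theorem lower_exc (T : Set (Pr K)) (hT : T.Finite) {M X : ℝ} (hM : 0 ≤ M) (hX : 1 ≤ X) (F : Finset K)
    (hF : ∀ z ∈ F, Pt z ∧ Real.log (nn (sp z)) ≤ Module.finrank ℚ K * Real.log X ∧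
      M * (Module.finrank ℚ K * Real.log X) ≤ hgt z ∧
      hgt z ≤ 2 / 5 * (Module.finrank ℚ K * Real.log X)) :
    (F.card : ℝ) ≤ ((ExcS T M X).ncard : ℝ) := by
  classical
  obtain ⟨T', rfl⟩ : ∃ T' : Finset (Pr K), T = (T' : Set (Pr K)) := ⟨hT.toFinset, by simp⟩
  have hd : (0 : ℝ) < Module.finrank ℚ K := by exact_mod_cast (Module.finrank_pos (R := ℚ) (M := K))
  have hX0 : 0 < X := by linarith
  have hfin : (ExcS (T' : Set (Pr K)) M X).Finite := (finite_exc _ hT M X).subset (excS_sub _ M X)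
  have hv : ∀ z : K, (![z, 1, -z - 1] : Fin 3 → K) ≠ 0 := by
    intro z h
    have := congrFun h 1
    simp at this
  obtain ⟨f, hf⟩ : ∃ f : K → Projectivization K (Fin 3 → K),
      f = fun z => Projectivization.mk K ![z, 1, -z - 1] (hv z) := ⟨_, rfl⟩
  have hinj : Function.Injective f := by
    intro z z' h
    rw [hf] at h
    simp only at h
    rw [Projectivization.mk_eq_mk_iff'] at h
    obtain ⟨a, ha⟩ := h
    have h1 := congrFun ha 1
    have h0 := congrFun ha 0
    simp at h1 h0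
    rw [h1, one_mul] at h0
    exact h0.symm
  have hsub : f '' (F : Set K) ⊆ ExcS (T' : Set (Pr K)) M X := by
    rintro P ⟨z, hz, rfl⟩
    obtain ⟨⟨p1, p2⟩, h2, h3, h4⟩ := hF z hz
    have s1 : (![z, 1, -z - 1] : Fin 3 → K) 0 + (![z, 1, -z - 1] : Fin 3 → K) 1 +
        (![z, 1, -z - 1] : Fin 3 → K) 2 = 0 := by
      show z + 1 + (-z - 1) = 0
      ring
    have s2 : (![z, 1, -z - 1] : Fin 3 → K) 0 * (![z, 1, -z - 1] : Fin 3 → K) 1 *
        (![z, 1, -z - 1] : Fin 3 → K) 2 ≠ 0 := by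
      show z * 1 * (-z - 1) ≠ 0
      refine mul_ne_zero (mul_ne_zero p1 one_ne_zero) ?_
      intro h
      apply p2
      linear_combination -h
    have a1 := radT_eq T' s1 s2
    have b1 := height3_eq s1 s2
    have a2 : (![z, 1, -z - 1] : Fin 3 → K) 0 / (![z, 1, -z - 1] : Fin 3 → K) 1 = z := by
      show z / 1 = z
      rw [div_one]
    rw [a2] at a1 b1
    have a3 : Real.log (nn (sp z \ T')) ≤ Real.log (nn (sp z)) :=
      Real.log_le_log (nn_pos _) (nn_mono Finset.sdiff_subset)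
    refine ⟨![z, 1, -z - 1], hv z, by rw [hf], s1, s2, ?_, ?_, ?_⟩
    · rw [← Real.le_log_iff_exp_le hX0]
      refine le_of_mul_le_mul_left ?_ hd
      rw [a1]
      linarith
    · refine le_of_mul_le_mul_left ?_ hd
      have e : (Module.finrank ℚ K : ℝ) * (M * radT (T' : Set (Pr K)) (![z, 1, -z - 1] : Fin 3 → K)) =
          M * (Module.finrank ℚ K * radT (T' : Set (Pr K)) (![z, 1, -z - 1] : Fin 3 → K)) := by ring
      rw [e, a1, b1]
      exact (mul_le_mul_of_nonneg_left (a3.trans h2) hM).trans h3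
    · refine le_of_mul_le_mul_left ?_ hd
      rw [b1]
      linarith
  have h3 : (f '' (F : Set K)).ncard ≤ (ExcS (T' : Set (Pr K)) M X).ncard :=
    Set.ncard_le_ncard hsub hfin
  rw [Set.ncard_image_of_injective _ hinj, Set.ncard_coe_finset] at h3
  exact_mod_cast h3

/-- the lower bound for the exceptions of small height -/
theorem lowS (K : Type) [Field K] [NumberField K] (T : Set (Pr K)) (hT : T.Finite) {M : ℝ}
    (hM1 : 1 / 3 < M) (hM2 : M < 2 / 5) (ε : ℝ) (hε : 0 < ε) : ∃ X₀ : ℝ, ∀ X : ℝ, X₀ ≤ X →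
      X ^ ((Module.finrank ℚ K : ℝ) * (1 - M) - ε) ≤ ((ExcS T M X).ncard : ℝ) := by
  have hd : (0 : ℝ) < Module.finrank ℚ K := by exact_mod_cast (Module.finrank_pos (R := ℚ) (M := K))
  obtain ⟨d, hdd⟩ : ∃ d : ℝ, d = Module.finrank ℚ K := ⟨_, rfl⟩
  rw [← hdd] at hd
  obtain ⟨η, hη⟩ : ∃ η, η = min (ε / (5 * d)) ((2 / 5 - M) / 10) := ⟨_, rfl⟩
  have hη0 : 0 < η := by
    rw [hη]
    exact lt_min (by positivity) (by linarith)
  have hη1 : 5 * d * η ≤ ε := by
    have h1 : η ≤ ε / (5 * d) := by rw [hη]; exact min_le_left _ _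
    rw [le_div_iff₀ (by positivity)] at h1
    linarith
  have hη2 : M + 10 * η ≤ 2 / 5 := by
    have h1 : η ≤ (2 / 5 - M) / 10 := by rw [hη]; exact min_le_right _ _
    linarith
  obtain ⟨L0, hL0, hlow⟩ := lower K M η hM1 hη0 hη2
  refine ⟨Real.exp (L0 / d), fun X hX => ?_⟩
  have hX1 : 1 ≤ X := (Real.one_le_exp (by positivity)).trans hX
  have hX0 : 0 < X := by linarith
  have hlX : 0 ≤ Real.log X := Real.log_nonneg hX1
  have h1 : L0 ≤ d * Real.log X := by
    have h2 := (Real.le_log_iff_exp_le hX0).2 hX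
    rw [div_le_iff₀ hd] at h2
    linarith
  obtain ⟨F, hF1, hF2⟩ := hlow (d * Real.log X) h1
  have h3 := lower_exc T hT (M := M) (by linarith) hX1 F (by rw [← hdd]; exact hF1)
  refine le_trans ?_ (hF2.trans h3)
  rw [Real.rpow_def_of_pos hX0, ← hdd]
  refine Real.exp_le_exp.2 ?_
  have h4 : 5 * d * η * Real.log X ≤ ε * Real.log X := mul_le_mul_of_nonneg_right hη1 hlX
  have e1 : (1 - M - 5 * η) * (d * Real.log X) = d * (1 - M) * Real.log X - 5 * d * η * Real.log X := by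
    ring
  have e2 : Real.log X * (d * (1 - M) - ε) = d * (1 - M) * Real.log X - ε * Real.log X := by ring
  rw [e1, e2]
  linarith

/-- the exceptions of small height -/
theorem mainS (K : Type) [Field K] [NumberField K] (T : Set (Pr K)) (hT : T.Finite) {M : ℝ}
    (hM1 : 1 / 3 < M) (hM2 : M < 2 / 5) :
    Tendsto (fun X : ℝ => Real.log ((ExcS T M X).ncard : ℝ) / Real.log X) atTop
      (𝓝 ((Module.finrank ℚ K : ℝ) * (1 - M))) := by
  classical
  refine tendsto_exponent (fun ε hε => ?_) (lowS K T hT hM1 hM2)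
  obtain ⟨T', rfl⟩ : ∃ T' : Finset (Pr K), T = (T' : Set (Pr K)) := ⟨hT.toFinset, by simp⟩
  obtain ⟨d, hd⟩ : ∃ d : ℝ, d = (Module.finrank ℚ K : ℝ) := ⟨_, rfl⟩
  have hdpos : 0 < d := by
    rw [hd]
    exact_mod_cast Module.finrank_pos
  obtain ⟨C, hC, hup⟩ := upper_small T' (by linarith : 0 < M) hM2.le (div_pos hε hdpos)
  refine ⟨C, hC, fun X hX => ?_⟩
  have hX0 : 0 < X := by linarith
  have hlX : 0 ≤ Real.log X := Real.log_nonneg hX
  have hXd : Real.log (X ^ d) = d * Real.log X := Real.log_rpow hX0 d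
  refine (transfer (ExcS (T' : Set (Pr K)) M X) (fun x => nn (sp x \ T') ≤ X ^ d ∧
      M * Real.log (nn (sp x \ T')) ≤ hgt x ∧ hgt x ≤ 2 / 5 * Real.log (nn T' * X ^ d)) _
      (by positivity) ?_ ?_).2
  · rintro P ⟨x, hx, a1, a2, a3, a4, a5, a6⟩
    refine ⟨x, hx, a1, a2, a3, ?_, ?_, ?_⟩
    · rw [← exp_radT T' a2 a3, ← hd, mul_comm d, Real.exp_mul]
      exact Real.rpow_le_rpow (Real.exp_pos _).le a4 hdpos.le
    · rw [← radT_eq T' a2 a3, ← height3_eq a2 a3, ← hd]
      have := mul_le_mul_of_nonneg_left a5 hdpos.le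
      linarith
    · rw [← height3_eq a2 a3, ← hd, Real.log_mul (nn_pos _).ne' (by positivity), hXd]
      have h1 := mul_le_mul_of_nonneg_left a6 hdpos.le
      have h2 : 0 ≤ Real.log (nn T') := Real.log_nonneg (one_le_nn T')
      linarith
  · intro E hE
    have h2 := hup (X ^ d) (Real.one_le_rpow hX hdpos.le) E hE
    refine h2.trans (le_of_eq ?_)
    rw [← Real.rpow_mul hX0.le, ← hd]
    congr 2
    field_simp

/-- the exceptions of all heights -/
theorem mainT (K : Type) [Field K] [NumberField K] :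
    ∃ M₀ : ℝ, 1 / 3 < M₀ ∧ ∀ (T : Set (Pr K)), T.Finite → ∀ M : ℝ, M ≤ M₀ →
      Tendsto (fun X : ℝ => Real.log ((ExcT T M X).ncard : ℝ) / Real.log X) atTop
        (𝓝 ((Module.finrank ℚ K : ℝ) * min (2 / 3) (1 - M))) := by
  classical
  obtain ⟨M₀, hM₀, hM₀', hup⟩ := upper_all K
  refine ⟨M₀, hM₀, fun T hT M hM => ?_⟩
  rcases le_or_gt M (1 / 3) with hM1 | hM1
  · -- all points are exceptions
    rw [min_eq_left (by linarith)]
    refine tendsto_exponent (fun ε hε => ?_) (fun ε hε => ?_)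
    · obtain ⟨C, hC⟩ := radical_count K T hT ε hε
      refine ⟨|C| + 1, by positivity, fun X hX => ?_⟩
      rw [exc_small T hT hM1]
      refine (hC X hX).2.trans ?_
      have hX0 : 0 < X := by linarith
      refine mul_le_mul_of_nonneg_right ?_ (by positivity)
      have := le_abs_self C
      linarith
    · obtain ⟨X₀, h⟩ := points_lower K T hT ε hε
      refine ⟨X₀, fun X hX => ?_⟩
      rw [exc_small T hT hM1]
      exact h X hX
  · rw [min_eq_right (by linarith)]
    refine tendsto_exponent (fun ε hε => ?_) (fun ε hε => ?_)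
    · obtain ⟨T', rfl⟩ : ∃ T' : Finset (Pr K), T = (T' : Set (Pr K)) := ⟨hT.toFinset, by simp⟩
      obtain ⟨d, hd⟩ : ∃ d : ℝ, d = (Module.finrank ℚ K : ℝ) := ⟨_, rfl⟩
      have hdpos : 0 < d := by
        rw [hd]
        exact_mod_cast Module.finrank_pos
      obtain ⟨C, hC, h1⟩ := hup T' M hM1 hM (ε / d) (div_pos hε hdpos)
      refine ⟨C, hC, fun X hX => ?_⟩
      have hX0 : 0 < X := by linarith
      refine (transfer (ExcT (T' : Set (Pr K)) M X) (fun x => nn (sp x \ T') ≤ X ^ d ∧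
          M * Real.log (nn (sp x \ T')) ≤ hgt x) _ (by positivity) ?_ ?_).2
      · rintro P ⟨x, hx, a1, a2, a3, a4, a5⟩
        refine ⟨x, hx, a1, a2, a3, ?_, ?_⟩
        · rw [← exp_radT T' a2 a3, ← hd, mul_comm d, Real.exp_mul]
          exact Real.rpow_le_rpow (Real.exp_pos _).le a4 hdpos.le
        · rw [← radT_eq T' a2 a3, ← height3_eq a2 a3, ← hd]
          have := mul_le_mul_of_nonneg_left a5 hdpos.le
          linarith
      · intro E hE
        have h2 := h1 (X ^ d) (Real.one_le_rpow hX hdpos.le) E hE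
        refine h2.trans (le_of_eq ?_)
        rw [← Real.rpow_mul hX0.le, ← hd]
        congr 2
        field_simp
    · obtain ⟨X₀, h⟩ := lowS K T hT hM1 (by linarith) ε hε
      refine ⟨X₀, fun X hX => (h X hX).trans ?_⟩
      exact_mod_cast Set.ncard_le_ncard (excS_sub T M X) (finite_exc T hT M X)

end Proj

end Pool.Agent.Y668.EX
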