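import Pool.Agent.Y812.LowerK

/-!
# Radical and height of a quotient `a / b` with `μ² ∣ a`
-/

set_option autoImplicit false

namespace Pool.Agent.Y668.EX

open Finset NumberField IsDedekindDomain Pool.Agent.H691R3 Pool.Agent.TH876.Loc Pool.Agent.TH876.KR
open Pool.Agent.Y728 (av_inl_le_house sum_mult)
open Pool.Agent.Y812.LK (coe_ne log_fv_le)

variable {K : Type} [Field K] [NumberField K]

/-- the radical of `a / b` -/
theorem sp_ineq {a b μ : 𝓞 K} (ha : a ≠ 0) (hb : b ≠ 0) (hab : a + b ≠ 0) (hμ : μ ≠ 0)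
    (hdvd : μ ^ 2 ∣ a) {T : ℝ} (hT : 1 ≤ T) (h1 : house (a : K) ≤ T) (h2 : house (b : K) ≤ T) :
    Pt ((a : K) / b) ∧
    Real.log (nn (sp ((a : K) / b))) + ∑ w : InfinitePlace K, lg (Sum.inl w : Pl K) (μ : K) ≤
      2 * hgt ((a : K) / b) + Module.finrank ℚ K * Real.log (2 * T) ∧
    hgt ((a : K) / b) ≤ Module.finrank ℚ K * Real.log (2 * T) := by
  classical
  have ha' := coe_ne ha
  have hb' := coe_ne hb
  have hμ' := coe_ne hμ
  have hab' : (a : K) + b ≠ 0 := by
    have := coe_ne hab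
    have e : ((a + b : 𝓞 K) : K) = (a : K) + b := rfl
    rwa [e] at this
  obtain ⟨x, hxd⟩ : ∃ x, x = (a : K) / b := ⟨_, rfl⟩
  rw [← hxd]
  have hx1 : x + 1 = ((a : K) + b) / b := by rw [hxd]; field_simp
  have hpt : Pt x := by
    refine ⟨by rw [hxd]; exact div_ne_zero ha' hb', ?_⟩
    rw [hx1]
    exact div_ne_zero hab' hb'
  -- the coordinates as integers
  obtain ⟨c, hc⟩ : ∃ c : Fin 3 → 𝓞 K, c = ![a, b, -(a + b)] := ⟨_, rfl⟩
  have hcL : ∀ i, (c i : K) = L i x * b := by
    intro i
    rw [hc]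
    fin_cases i
    · show (a : K) = x * b
      rw [hxd]; field_simp
    · show (b : K) = 1 * b
      rw [one_mul]
    · show ((-(a + b) : 𝓞 K) : K) = (-x - 1) * b
      have e : ((-(a + b) : 𝓞 K) : K) = -((a : K) + b) := rfl
      rw [e, hxd]
      field_simp
      ring
  have hc0 : ∀ i, c i ≠ 0 := by
    intro i h
    have h3 := hcL i
    rw [h] at h3
    have h4 : ((0 : 𝓞 K) : K) = 0 := rfl
    rw [h4] at h3
    exact mul_ne_zero (L_ne hpt i) hb' h3.symm
  have hlgc : ∀ (v : Pl K) (i : Fin 3), lg v (c i : K) = lg v (L i x) + lg v (b : K) := by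
    intro v i
    rw [hcL, lg_mul v (L_ne hpt i) hb']
  have hatt : ∀ v : Pl K, ∃ i, mx v x + lg v (b : K) = lg v (c i : K) := by
    intro v
    obtain ⟨i, hi⟩ := M_attained v x
    refine ⟨i, ?_⟩
    rw [hlgc]
    congr 1
    unfold mx lg
    rw [hi]
  have hlgfin : ∀ (v : Pr K) (z : 𝓞 K), z ≠ 0 → lg (Sum.inr v : Pl K) (z : K) ≤ 0 := by
    intro v z hz
    show 1 * Real.log (fv v (z : K)) ≤ 0
    rw [one_mul]
    exact Real.log_nonpos ((fv v).nonneg _) (fv_int_le v z)
  have hT2 : 0 ≤ Real.log (2 * T) := Real.log_nonneg (by linarith)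
  have hhc : ∀ i, house (c i : K) ≤ 2 * T := by
    intro i
    rw [hc]
    fin_cases i
    · show house (a : K) ≤ 2 * T
      linarith
    · show house (b : K) ≤ 2 * T
      linarith
    · show house ((-(a + b) : 𝓞 K) : K) ≤ 2 * T
      have e : ((-(a + b) : 𝓞 K) : K) = (((-1 : ℤ) : K)) * ((a : K) + b) := by
        have : ((-(a + b) : 𝓞 K) : K) = -((a : K) + b) := rfl
        rw [this]; push_cast; ring
      rw [e]
      refine (house_mul_le _ _).trans ?_
      rw [house_intCast]
      have h3 := house_add_le (a : K) (b : K)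
      norm_num
      linarith
  have hinf : ∀ w : InfinitePlace K, mx (Sum.inl w : Pl K) x + lg (Sum.inl w : Pl K) (b : K) ≤
      w.mult * Real.log (2 * T) := by
    intro w
    obtain ⟨i, hi⟩ := hatt (Sum.inl w)
    rw [hi]
    show (w.mult : ℝ) * Real.log (av (Sum.inl w : Pl K) (c i : K)) ≤ _
    refine mul_le_mul_of_nonneg_left ?_ (Nat.cast_nonneg _)
    exact Real.log_le_log ((av _).pos (coe_ne (hc0 i))) ((av_inl_le_house w _).trans (hhc i))
  have hfin : ∀ v : Pr K, mx (Sum.inr v : Pl K) x + lg (Sum.inr v : Pl K) (b : K) ≤ 0 := by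
    intro v
    obtain ⟨i, hi⟩ := hatt (Sum.inr v)
    rw [hi]
    exact hlgfin v _ (hc0 i)
  have hlga : ∀ v : Pr K, lg (Sum.inr v : Pl K) (a : K) ≤ 2 * lg (Sum.inr v : Pl K) (μ : K) := by
    intro v
    obtain ⟨k, hk⟩ := hdvd
    have hk0 : k ≠ 0 := by
      rintro rfl
      rw [mul_zero] at hk
      exact ha hk
    have e : (a : K) = (μ : K) * (μ : K) * (k : K) := by
      rw [hk]
      show ((μ ^ 2 * k : 𝓞 K) : K) = _
      have : ((μ ^ 2 * k : 𝓞 K) : K) = (μ : K) ^ 2 * (k : K) := by push_cast; rfl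
      rw [this]; ring
    rw [e, lg_mul _ (mul_ne_zero hμ' hμ') (coe_ne hk0), lg_mul _ hμ' hμ']
    have := hlgfin v k hk0
    linarith
  have hlga' : ∀ v : Pr K, lg (Sum.inr v : Pl K) (a : K) =
      mx (Sum.inr v : Pl K) x + lg (Sum.inr v : Pl K) (b : K) - df (Sum.inr v : Pl K) 0 x := by
    intro v
    have h3 := hlgc (Sum.inr v) 0
    have h4 : c 0 = a := by rw [hc]; rfl
    rw [h4] at h3
    rw [h3]
    unfold df
    ring
  -- the local inequality
  have hloc : ∀ v : Pr K, (if v ∈ sp x then Real.log (Nv v) else 0) - lg (Sum.inr v : Pl K) (μ : K) ≤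
      gd (Sum.inr v : Pl K) x - (mx (Sum.inr v : Pl K) x + lg (Sum.inr v : Pl K) (b : K)) := by
    intro v
    have e1 := hlga v
    have e2 := hlga' v
    have e3 := hfin v
    have e4 := hlgfin v μ hμ
    have e5 := gd_nonneg (Sum.inr v : Pl K) hpt
    have hN := log_Nv_pos' v
    by_cases hv : v ∈ sp x
    · rw [if_pos hv]
      obtain ⟨i, hi⟩ := (mem_sp_iff hpt v).1 hv
      have e6 := gd_eq hpt hi
      obtain ⟨m, hm⟩ := df_int hpt v i
      have e7 := (mem_side hpt).1 hi
      have e8 : Real.log (Nv v) ≤ df (Sum.inr v : Pl K) i x := by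
        rw [hm] at e7 ⊢
        have h6 : 1 ≤ m := by
          rcases Nat.eq_zero_or_pos m with h0 | h0
          · rw [h0, Nat.cast_zero, zero_mul] at e7
            exact absurd e7 (lt_irrefl _)
          · exact h0
        have h7 : (1 : ℝ) ≤ m := by exact_mod_cast h6
        exact le_mul_of_one_le_left hN.le h7
      by_cases hi0 : i = 0
      · subst hi0
        by_cases hone : fv v (μ : K) = 1
        · have e9 : lg (Sum.inr v : Pl K) (μ : K) = 0 := by
            show 1 * Real.log (fv v (μ : K)) = 0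
            rw [hone, Real.log_one, mul_zero]
          rw [e9, e6]
          linarith
        · have e9 := log_fv_le v hμ hone
          have e10 : lg (Sum.inr v : Pl K) (μ : K) = Real.log (fv v (μ : K)) := by
            show 1 * Real.log (fv v (μ : K)) = _
            rw [one_mul]
          rw [← e10] at e9
          rw [e6]
          linarith
      · have e9 : df (Sum.inr v : Pl K) 0 x = 0 := by
          refine df_eq_zero hpt fun h => hi0 ?_
          exact side_uniq hi h
        rw [e9] at e2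
        rw [e6]
        linarith
    · rw [if_neg hv]
      have e9 : df (Sum.inr v : Pl K) 0 x = 0 := by
        refine df_eq_zero hpt fun h => hv ?_
        exact (mem_sp_iff hpt v).2 ⟨0, h⟩
      rw [e9] at e2
      linarith
  -- the global inequality
  obtain ⟨V, hV⟩ : ∃ V : Finset (Pr K), V = sp x ∪ ((fv_support_finite hb').toFinset ∪
      (fv_support_finite hμ').toFinset) := ⟨_, rfl⟩
  have hV1 : sp x ⊆ V := by rw [hV]; exact Finset.subset_union_left
  have hV2 : ∀ v, v ∉ V → fv v (b : K) = 1 := by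
    intro v hv
    by_contra h
    apply hv
    rw [hV, Finset.mem_union, Finset.mem_union, Set.Finite.mem_toFinset]
    exact Or.inr (Or.inl h)
  have hV3 : ∀ v, v ∉ V → fv v (μ : K) = 1 := by
    intro v hv
    by_contra h
    apply hv
    rw [hV, Finset.mem_union, Finset.mem_union, Set.Finite.mem_toFinset, Set.Finite.mem_toFinset]
    exact Or.inr (Or.inr h)
  have s1 := sum_gd hpt hV1
  have s2 := hgt_eq hpt hV1
  have s3 := sum_lg hb' hV2
  have s4 := sum_lg hμ' hV3
  rw [sum_Spl] at s1 s2 s3 s4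
  have s5 : 0 ≤ ∑ w : InfinitePlace K, gd (Sum.inl w : Pl K) x :=
    Finset.sum_nonneg fun w _ => gd_nonneg _ hpt
  have s6 := Finset.sum_le_sum fun v (_ : v ∈ V) => hloc v
  rw [Finset.sum_sub_distrib, Finset.sum_sub_distrib, Finset.sum_add_distrib] at s6
  have s7 : ∑ v ∈ V, (if v ∈ sp x then Real.log (Nv v) else 0) = Real.log (nn (sp x)) := by
    rw [log_nn, Finset.sum_ite_mem]
    rw [Finset.inter_eq_right.2 hV1]
  rw [s7] at s6
  have s8 := Finset.sum_le_sum fun w (_ : w ∈ (Finset.univ : Finset (InfinitePlace K))) => hinf w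
  rw [Finset.sum_add_distrib, ← Finset.sum_mul, sum_mult] at s8
  have s9 := Finset.sum_le_sum fun v (_ : v ∈ V) => hfin v
  rw [Finset.sum_add_distrib, Finset.sum_const_zero] at s9
  refine ⟨hpt, ?_, ?_⟩
  · linarith
  · linarith

end Pool.Agent.Y668.EX
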